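import Pool.Agent.H23.QCF.Targets

/-!
# K23: prescribed symbols
-/

set_option autoImplicit false

open NumberField IsDedekindDomain Pool.Agent.H23.QCF
open Pool.Agent.H32.QC (Sol hil Iso FPl Pl ic hs sqAt HasseConic ProdFormula Prescribed)

namespace Pool.Agent.H60.QCF

theorem hil_pm {L : Type*} [Field L] (a b : L) : hil a b = 1 ∨ hil a b = -1 := by
  unfold hil
  split_ifs
  · exact Or.inl rfl
  · exact Or.inr rfl

theorem sol_symm {L : Type*} [Field L] {a b : L} (h : Sol a b) : Sol b a := by
  obtain ⟨x, y, z, h1, h2⟩ := h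
  refine ⟨y, x, z, ?_, by rw [h2]; ring⟩
  tauto

theorem hil_symm {L : Type*} [Field L] (a b : L) : hil a b = hil b a := by
  unfold hil
  by_cases h : Sol a b
  · rw [if_pos h, if_pos (sol_symm h)]
  · rw [if_neg h, if_neg fun h' => h (sol_symm h')]

theorem hil_one {L : Type*} [Field L] (a : L) : hil a 1 = 1 := by
  unfold hil
  refine if_pos ⟨0, 1, 1, Or.inr (Or.inl one_ne_zero), by ring⟩

section

variable {K : Type} [Field K] [NumberField K]

theorem hs_pm (v : Pl K) (a b : K) : hs v a b = 1 ∨ hs v a b = -1 := by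
  unfold hs
  cases v
  · exact hil_pm _ _
  · exact hil_pm _ _

theorem hs_symm (v : Pl K) (a b : K) : hs v a b = hs v b a := by
  unfold hs
  cases v
  · exact hil_symm _ _
  · exact hil_symm _ _

theorem hs_one (v : Pl K) (a : K) : hs v a 1 = 1 := by
  unfold hs
  cases v
  · simp only [map_one]
    exact hil_one _
  · simp only [map_one]
    exact hil_one _

theorem sqAt_of (v : Pl K) {a : K} (h : IsSquare a) : sqAt v a := by
  unfold sqAt
  cases v
  · exact h.map _
  · exact h.map _

theorem pt_symm (hmul : T_HMUL) {a : K} (ha : a ≠ 0) {X Y : Set (Pl K)} (hX : X ∈ PT a)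
    (hY : Y ∈ PT a) : symmDiff X Y ∈ PT a := by
  obtain ⟨u, rfl⟩ := hX
  obtain ⟨w, rfl⟩ := hY
  refine ⟨u * w, ?_⟩
  ext p
  have h := hmul K p u w a u.ne_zero w.ne_zero ha
  have e1 : p ∈ PP ((u * w : Kˣ) : K) a ↔ hs p ((u : K) * (w : K)) a = -1 := by
    rw [← Units.val_mul]
    exact Iff.rfl
  have e2 : p ∈ PP (u : K) a ↔ hs p (u : K) a = -1 := Iff.rfl
  have e3 : p ∈ PP (w : K) a ↔ hs p (w : K) a = -1 := Iff.rfl
  rw [Set.mem_symmDiff, e1, e2, e3, h]
  rcases hs_pm p (u : K) a with h1 | h1 <;> rcases hs_pm p (w : K) a with h2 | h2 <;>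
    rw [h1, h2] <;> norm_num

theorem pt_even (h6a : T_B6A) (h6e : T_B6E) (hmul : T_HMUL) {a : K} (ha : a ≠ 0)
    (hsq : ¬ IsSquare a) : ∀ (n : ℕ) (s : Finset (Pl K)), s.card = 2 * n →
    (∀ p ∈ s, ¬ sqAt p a) → (s : Set (Pl K)) ∈ PT a := by
  classical
  intro n
  induction n with
  | zero =>
    intro s hs _
    have : s = ∅ := Finset.card_eq_zero.1 (by simpa using hs)
    subst this
    refine ⟨1, ?_⟩
    ext p
    have e1 : p ∈ PP ((1 : Kˣ) : K) a ↔ Pool.Agent.H32.QC.hs p (1 : K) a = -1 := by
      rw [Units.val_one]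
      exact Iff.rfl
    rw [e1, hs_symm, hs_one]
    simp
  | succ n ih =>
    intro s hs hns
    obtain ⟨p, hp⟩ : s.Nonempty := Finset.card_pos.1 (by omega)
    have hc1 : (s.erase p).card = 2 * n + 1 := by
      rw [Finset.card_erase_of_mem hp]
      omega
    obtain ⟨q, hq⟩ : (s.erase p).Nonempty := Finset.card_pos.1 (by omega)
    have hc2 : ((s.erase p).erase q).card = 2 * n := by
      rw [Finset.card_erase_of_mem hq]
      omega
    have hqp : q ≠ p := (Finset.mem_erase.1 hq).1
    have hqs : q ∈ s := (Finset.mem_erase.1 hq).2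
    have h1 := ih _ hc2 (fun r hr => hns r (Finset.mem_of_mem_erase (Finset.mem_of_mem_erase hr)))
    have hRR : ∀ r : Pl K, r ∈ RR K := fun r => by
      rw [h6e K]
      exact Set.mem_univ r
    have h2 : symmDiff ({p} : Set (Pl K)) {q} ∈ PT a :=
      h6a K a hsq {p} {q} (Set.finite_singleton _) (Set.finite_singleton _)
        (fun r hr => by rw [Set.mem_singleton_iff.1 hr]; exact hns p hp)
        (fun r hr => by rw [Set.mem_singleton_iff.1 hr]; exact hns q hqs)
        (hRR p a ha (hns p hp)) (hRR q a ha (hns q hqs))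
    have h3 := pt_symm hmul ha h1 h2
    have e : symmDiff (((s.erase p).erase q : Finset (Pl K)) : Set (Pl K))
        (symmDiff ({p} : Set (Pl K)) {q}) = (s : Set (Pl K)) := by
      ext r
      simp only [Set.mem_symmDiff, Finset.coe_erase, Set.mem_sdiff, Set.mem_singleton_iff,
        Finset.mem_coe]
      by_cases hrp : r = p
      · subst hrp
        simp [hp, hqp.symm]
      · by_cases hrq : r = q
        · subst hrq
          simp [hqs, hqp]
        · simp [hrp, hrq]
    rw [← e]
    exact h3

end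

theorem pf_PRE (h6a : T_B6A) (h6e : T_B6E) (hmul : T_HMUL) (hpf : T_PFIN) : T_PRE := by
  classical
  intro K _ _ a e ha hpm hfin hprod hns
  by_cases hsq : IsSquare a
  · refine ⟨1, one_ne_zero, fun v => ?_⟩
    rw [hs_one]
    rcases hpm v with h | h
    · exact h.symm
    · exact absurd (sqAt_of v hsq) (hns v h)
  · set s : Finset (Pl K) := hfin.toFinset with hs'
    have hmem : ∀ v, v ∈ s ↔ e v = -1 := by
      intro v
      rw [hs', Set.Finite.mem_toFinset]
      constructor
      · intro h
        exact (hpm v).resolve_left h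
      · intro h h1
        rw [h] at h1
        norm_num at h1
    have hev : Even s.card := by
      have h1 : ∏ᶠ v, e v = ∏ v ∈ s, e v := by
        refine finprod_eq_prod_of_mulSupport_subset e ?_
        intro v hv
        rw [hs', Set.Finite.coe_toFinset]
        exact hv
      have h2 : ∏ v ∈ s, e v = (-1) ^ s.card := by
        rw [Finset.prod_congr rfl fun v hv => (hmem v).1 hv, Finset.prod_const]
      rw [h1, h2] at hprod
      by_contra hodd
      rw [Nat.not_even_iff_odd] at hodd
      rw [hodd.neg_one_pow] at hprod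
      norm_num at hprod
    obtain ⟨n, hn⟩ := hev
    obtain ⟨u, hu⟩ := pt_even h6a h6e hmul ha hsq n s (by omega)
      (fun p hp => hns p ((hmem p).1 hp))
    refine ⟨u, u.ne_zero, fun v => ?_⟩
    rw [hs_symm]
    have h1 : hs v (u : K) a = -1 ↔ e v = -1 := by
      rw [← hmem v]
      have : v ∈ PP (u : K) a ↔ v ∈ (s : Set (Pl K)) := by rw [hu]
      exact this
    rcases hpm v with h | h
    · rw [h]
      rcases hs_pm v (u : K) a with h2 | h2
      · exact h2
      · have h3 := h1.1 h2
        rw [h] at h3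
        norm_num at h3
    · rw [h]
      exact h1.2 h

end Pool.Agent.H60.QCF
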